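import Mathlib
import Pool.Agent.H.MP_ca288e_gt.D

namespace Pool.Agent.H.MP_898423_gt

open Set Filter Topology Cardinal Pool.Agent.H.MP_ca288e_gt

noncomputable section

theorem pigeon' {ι α : Type} (hα : Cardinal.mk α ≤ 𝔠) {s : Set ι} (hs : 𝔠 < Cardinal.mk s)
    (f : ι → α) : ∃ a, 𝔠 < Cardinal.mk ({i ∈ s | f i = a} : Set ι) := by
  by_contra h
  push Not at h
  have h1 := small_biUnion (s := (univ : Set α)) (f := fun a => {i ∈ s | f i = a})
    (by rwa [mk_univ]) fun a _ => h a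
  obtain ⟨i, hi, hi'⟩ := exists_not_mem hs h1
  exact hi' (mem_biUnion (mem_univ (f i)) ⟨hi, rfl⟩)

theorem delta' {ι A : Type} (hA : Cardinal.mk A ≤ 𝔠) (s : Set ι) (hs : 𝔠 < Cardinal.mk s)
    (Γ : ι → Finset W) (w : ι → W → A) (N : ι → ℕ) :
    ∃ u ∈ s, ∃ v ∈ s, u ≠ v ∧ N u = N v ∧ (∀ g ∈ Γ u, g ∈ Γ v → w u g = w v g) ∧
      ∀ g ∈ Γ u, g ∉ Γ v → ∀ g' ∈ Γ v, g' ∉ Γ u → g < g' ∧ N u < rho g g' := by
  classical
  obtain ⟨⟨m, n⟩, h1⟩ := pigeon hs fun u => ((Γ u).card, N u)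
  set s1 := {u ∈ s | ((Γ u).card, N u) = (m, n)} with hs1
  let Q : ℕ → Prop := fun k => ∃ r : Finset W, r.card = k ∧
    𝔠 < Cardinal.mk ({u ∈ s1 | r ⊆ Γ u} : Set ι)
  have Q0 : Q 0 := ⟨∅, rfl, by simpa using h1⟩
  have Qb : ∀ k, Q k → k ≤ m := by
    rintro k ⟨r, rfl, hr⟩
    obtain ⟨u, hu, -⟩ := exists_not_mem hr (small_countable countable_empty)
    have := Finset.card_le_card hu.2
    have h2 := congrArg Prod.fst hu.1.2
    simp only at h2
    omega
  obtain ⟨r, hrk, hr⟩ : Q (Nat.findGreatest Q m) := Nat.findGreatest_spec (Nat.zero_le m) Q0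
  have hmax : ∀ g ∉ r, Cardinal.mk ({u ∈ s1 | insert g r ⊆ Γ u} : Set ι) ≤ 𝔠 := by
    intro g hg
    by_contra hc
    have hq : Q (r.card + 1) := ⟨insert g r, Finset.card_insert_of_notMem hg, not_le.1 hc⟩
    have := Nat.le_findGreatest (Qb _ hq) hq
    omega
  have hrA : Cardinal.mk (r → A) ≤ 𝔠 := by
    rw [← power_def]
    calc Cardinal.mk A ^ Cardinal.mk r ≤ 𝔠 ^ Cardinal.mk r := power_le_power_right hA
      _ ≤ 𝔠 ^ ℵ₀ := power_le_power_left continuum_ne_zero mk_le_aleph0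
      _ = 𝔠 := continuum_power_aleph0
  obtain ⟨a, h2⟩ := pigeon' hrA hr fun u => fun g : r => w u g
  set s2 := {u ∈ {u ∈ s1 | r ⊆ Γ u} | (fun g : r => w u g) = a} with hs2
  obtain ⟨u, hu, v, hv, huv, h⟩ := two_blocks s2 (fun u => Γ u \ r) n (m - r.card) (by
      intro u hu
      rw [Finset.card_sdiff_of_subset hu.1.2]
      have h2 := congrArg Prod.fst hu.1.1.2
      simp only at h2
      rw [h2]) h2 (by
      intro δ
      refine le_trans (mk_le_mk_of_subset ?_)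
        (small_biUnion (s := Iic δ \ r) (f := fun g => {u ∈ s1 | insert g r ⊆ Γ u})
          ((mk_le_mk_of_subset sdiff_subset).trans (mk_Iic_le δ)) fun g hg => hmax g hg.2)
      rintro u ⟨hu, g, hg, hgδ⟩
      rw [Finset.mem_sdiff] at hg
      exact mem_biUnion (x := g) ⟨hgδ, hg.2⟩ ⟨hu.1.1, Finset.insert_subset hg.1 hu.1.2⟩)
  have h3 := congrArg Prod.snd hu.1.1.2
  have h4 := congrArg Prod.snd hv.1.1.2
  simp only at h3 h4
  refine ⟨u, hu.1.1.1, v, hv.1.1.1, huv, h3.trans h4.symm, fun g hg hg' => ?_,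
    fun g hg hg1 g' hg' hg2 => ?_⟩
  · by_cases hgr : g ∈ r
    · exact (congrFun hu.2 ⟨g, hgr⟩).trans (congrFun hv.2 ⟨g, hgr⟩).symm
    · exact absurd (h g (Finset.mem_sdiff.2 ⟨hg, hgr⟩) g (Finset.mem_sdiff.2 ⟨hg', hgr⟩)).1
        (lt_irrefl g)
  · rw [h3]
    exact h g (Finset.mem_sdiff.2 ⟨hg, fun h => hg1 (hv.1.2 h)⟩) g'
      (Finset.mem_sdiff.2 ⟨hg', fun h => hg2 (hu.1.2 h)⟩)

theorem exists_lab : ∃ lab : W → ℕ, ∀ (δ : W) (k : ℕ), ∃ g, δ < g ∧ lab g = k := by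
  have hW : ℵ₀ ≤ Cardinal.mk W := aleph0_le_continuum.trans lt_mk_W.le
  have h : Cardinal.mk W = Cardinal.mk (W × ℕ) := by
    rw [mk_prod, lift_id, lift_id, mk_nat, mul_eq_left hW hW aleph0_ne_zero]
  obtain ⟨e⟩ := Cardinal.eq.1 h
  refine ⟨fun g => (e g).2, fun δ k => ?_⟩
  have hinj : Function.Injective fun g : W => e.symm (g, k) := fun g g' h =>
    congrArg Prod.fst (e.symm.injective h)
  obtain ⟨_, ⟨g, rfl⟩, hg⟩ := exists_not_mem (s := range fun g : W => e.symm (g, k))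
    (by rw [mk_range_eq _ hinj]; exact lt_mk_W) (mk_Iic_le δ)
  exact ⟨_, not_le.1 hg, by simp⟩

def M : Type := C

def M.toC (x : M) : C := x

open Classical in
def em (x : M) : C × (B → Bool) := (x.toC, fun β => decide (x.toC = β.1))

instance : TopologicalSpace M := TopologicalSpace.induced em inferInstance

theorem emb : IsEmbedding em := ⟨⟨rfl⟩, fun _ _ h => congrArg Prod.fst h⟩

instance : T3Space M := emb.t3Space

theorem cont_toC : Continuous M.toC := continuous_fst.comp emb.continuous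

theorem clopen_pt {β : C} (hβ : β ∈ B) : IsClopen {x : M | x.toC = β} := by
  classical
  have h : Continuous fun x : M => (em x).2 ⟨β, hβ⟩ :=
    (continuous_apply _).comp (continuous_snd.comp emb.continuous)
  convert (isClopen_discrete {true}).preimage h using 1
  ext x
  simp [em]

theorem tendsto_M {α : Type} {l : Filter α} {f : α → M} {x : M} (hx : x.toC ∉ B)
    (h : Tendsto (fun a => (f a).toC) l (𝓝 x.toC)) : Tendsto f l (𝓝 x) := by
  classical
  rw [emb.tendsto_nhds_iff]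
  refine Tendsto.prodMk_nhds h (tendsto_pi_nhds.2 fun β => tendsto_const_nhds.congr' ?_)
  have hne : x.toC ≠ β.1 := fun h => hx (h ▸ β.2)
  filter_upwards [h.eventually_ne hne] with a ha
  simp [ha, hne]

instance : FirstCountableTopology M := ⟨fun x => by
  by_cases hx : x.toC ∈ B
  · have : 𝓝 x = pure x := (isOpen_singleton_iff_nhds_eq_pure x).1 (clopen_pt hx).isOpen
    rw [this]; infer_instance
  · have : 𝓝 x = comap M.toC (𝓝 x.toC) :=
      le_antisymm (cont_toC.tendsto x).le_comap (tendsto_M (f := id) hx tendsto_comap)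
    rw [this]; infer_instance⟩

def toX (u : ℕ → M) : X1 := fun i => (u i).toC

def M.ofC (x : C) : M := x

def ofX (u : X1) : ℕ → M := fun i => M.ofC (u i)

theorem lind_M (J : Finset ℕ) : ∀ Q : Set X1, IsClosed Q →
    (∀ i ∉ J, ∃ s, ∀ u ∈ Q, u i = s) → IsLindelof (toX ⁻¹' Q) := by
  classical
  induction J using Finset.strongInduction with
  | H J ih =>
    intro Q hQ hJ
    refine isLindelof_of_countable_subcover fun {ι} U hU hcov => ?_
    have h1 : ∀ u ∈ {u ∈ Q | ∀ i ∈ J, u i ∉ B}, ∃ a : ι, ∃ O : Set X1, IsOpen O ∧ u ∈ O ∧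
        ∀ v : ℕ → M, toX v ∈ O ∩ Q → v ∈ U a := by
      rintro u ⟨hu, hu'⟩
      obtain ⟨a, ha⟩ := mem_iUnion.1 (hcov (a := ofX u) hu)
      have ht : Tendsto ofX (𝓝[Q] u) (𝓝 (ofX u)) := by
        refine tendsto_pi_nhds.2 fun i => ?_
        by_cases hi : i ∈ J
        · exact tendsto_M (x := ofX u i) (hu' i hi)
            (((continuous_apply i).tendsto u).mono_left nhdsWithin_le_nhds)
        · obtain ⟨s, hs⟩ := hJ i hi
          refine tendsto_const_nhds.congr' ?_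
          filter_upwards [self_mem_nhdsWithin] with v hv
          exact (hs u hu).trans (hs v hv).symm
      have h5 : ofX ⁻¹' U a ∈ 𝓝[Q] u := ht ((hU a).mem_nhds ha)
      obtain ⟨O, hO, huO, hOQ⟩ := mem_nhdsWithin.1 h5
      exact ⟨a, O, hO, huO, fun v hv => hOQ hv⟩
    choose a O hO huO hOQ using h1
    obtain ⟨r, hr, hr'⟩ := (HereditarilyLindelofSpace.isLindelof
      {u ∈ Q | ∀ i ∈ J, u i ∉ B}).elim_countable_subcover
      (fun u : {u ∈ Q | ∀ i ∈ J, u i ∉ B} => O u.1 u.2) (fun u => hO u.1 u.2)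
      (fun u hu => mem_iUnion.2 ⟨⟨u, hu⟩, huO u hu⟩)
    have hP : IsClosed (Q \ ⋃ u ∈ r, O u.1 u.2) :=
      hQ.sdiff (isOpen_biUnion fun u _ => hO u.1 u.2)
    have hnb : ¬ Big J (Q \ ⋃ u ∈ r, O u.1 u.2) := by
      intro hb
      obtain ⟨u, hu, hu'⟩ := B_bern J _ hP hb
      exact hu.2 (hr' ⟨hu.1, hu'⟩)
    unfold Big at hnb
    push Not at hnb
    obtain ⟨S, hS, hS'⟩ := hnb
    have hL : IsLindelof (⋃ q ∈ (J : Set ℕ) ×ˢ S, toX ⁻¹' (Q ∩ {u | u q.1 = q.2})) := by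
      refine (J.countable_toSet.prod hS).isLindelof_biUnion fun q hq => ?_
      refine ih (J.erase q.1) (Finset.erase_ssubset hq.1) _
        (hQ.inter (isClosed_eq (continuous_apply _) continuous_const)) fun i hi => ?_
      by_cases hiq : i = q.1
      · exact ⟨q.2, fun u hu => hiq ▸ hu.2⟩
      · obtain ⟨s, hs⟩ := hJ i fun h => hi (Finset.mem_erase.2 ⟨hiq, h⟩)
        exact ⟨s, fun u hu => hs u hu.1⟩
    obtain ⟨r', hr1, hr2⟩ := hL.elim_countable_subcover U hU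
      (iUnion₂_subset fun q _ => (preimage_mono inter_subset_left).trans hcov)
    refine ⟨(fun u => a u.1 u.2) '' r ∪ r', (hr.image _).union hr1, fun v hv => ?_⟩
    by_cases hvO : toX v ∈ ⋃ u ∈ r, O u.1 u.2
    · obtain ⟨u, hu, hu'⟩ := mem_iUnion₂.1 hvO
      exact mem_biUnion (Or.inl (mem_image_of_mem _ hu)) (hOQ u.1 u.2 v ⟨hu', hv⟩)
    · obtain ⟨i, hi, hiS⟩ := hS' _ ⟨hv, hvO⟩
      obtain ⟨j, hj, hj'⟩ := mem_iUnion₂.1
        (hr2 (mem_biUnion (x := (i, toX v i)) ⟨hi, hiS⟩ ⟨hv, rfl⟩))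
      exact mem_biUnion (Or.inr hj) hj'

theorem exists_o : ∃ o : M, o.toC ∉ B := by
  obtain ⟨u, -, hu⟩ := B_bern {0} univ isClosed_univ (by
    intro S hS
    have : S ≠ Set.univ := by
      rintro rfl
      have := le_aleph0_iff_set_countable.2 hS
      rw [mk_univ, mk_C] at this
      exact absurd this (not_le.2 aleph0_lt_continuum)
    obtain ⟨x, hx⟩ := (ne_univ_iff_exists_notMem S).1 this
    exact ⟨fun _ => x, trivial, fun _ _ => hx⟩)
  exact ⟨u 0, hu 0 (Finset.mem_singleton_self 0)⟩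

def o : M := exists_o.choose

theorem o_not : o.toC ∉ B := exists_o.choose_spec

theorem lind_E (K : ℕ) : IsLindelof {σ : ℕ → M | ∀ j, K ≤ j → σ j = o} := by
  refine lind_M (Finset.range K) {u | ∀ j, K ≤ j → u j = o.toC} ?_ fun i hi => ?_
  · simp only [ofPred_forall]
    exact isClosed_iInter fun j => isClosed_iInter fun _ =>
      isClosed_eq (continuous_apply _) continuous_const
  · exact ⟨_, fun u hu => hu i (by simpa using hi)⟩

end

end Pool.Agent.H.MP_898423_gt
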