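import Mathlib
import Pool.Agent.H.MP_898423_gt.A

namespace Pool.Agent.H.MP_898423_gt

open Set Filter Topology Cardinal Pool.Agent.H.MP_ca288e_gt

noncomputable section

abbrev Y : Type := C × (ℕ → M)

def non : Y := (fun _ => false, fun _ => o)

def lab : W → ℕ := exists_lab.choose

theorem lab_spec (δ : W) (k : ℕ) : ∃ g, δ < g ∧ lab g = k := exists_lab.choose_spec δ k

def vl (K i : ℕ) (σ : ℕ → M) : Y :=
  (fun n => (σ (Nat.pair i 1)).toC n && decide (n < K), fun j => σ (Nat.pair i (j + 2)))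

theorem cont_vl (K i : ℕ) : Continuous (vl K i) := by
  refine Continuous.prodMk (continuous_pi fun n => ?_) (continuous_pi fun j => continuous_apply _)
  exact (continuous_of_discreteTopology (f := fun x : Bool => x && decide (n < K))).comp
    ((continuous_apply n).comp (cont_toC.comp (continuous_apply _)))

open Classical in
def cl (β : C) (K : ℕ) : ℕ → (ℕ → M) → Y
  | 0 => fun _ => non
  | i + 1 => fun σ => if (σ (Nat.pair i 0)).toC = β then vl K i σ else cl β K i σ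

theorem cont_cl {β : C} (hβ : β ∈ B) (K i : ℕ) : Continuous (cl β K i) := by
  classical
  induction i with
  | zero => exact continuous_const
  | succ i ih =>
    have h : IsClopen {σ : ℕ → M | (σ (Nat.pair i 0)).toC = β} :=
      (clopen_pt hβ).preimage (continuous_apply (Nat.pair i 0))
    refine Continuous.if ?_ (cont_vl K i) ih
    rw [h.frontier_eq]
    exact fun _ h => h.elim

theorem cl_spec (β : C) (K i : ℕ) (σ : ℕ → M) :
    ((∀ j < i, (σ (Nat.pair j 0)).toC ≠ β) ∧ cl β K i σ = non) ∨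
      ∃ j < i, (σ (Nat.pair j 0)).toC = β ∧ cl β K i σ = vl K j σ := by
  induction i with
  | zero => exact Or.inl ⟨fun _ h => absurd h (Nat.not_lt_zero _), rfl⟩
  | succ i ih =>
    by_cases h : (σ (Nat.pair i 0)).toC = β
    · exact Or.inr ⟨i, Nat.lt_succ_self i, h, if_pos h⟩
    · have e : cl β K (i + 1) σ = cl β K i σ := if_neg h
      rw [e]
      rcases ih with ⟨h1, h2⟩ | ⟨j, h1, h2⟩
      · refine Or.inl ⟨fun j hj => ?_, h2⟩
        rcases (Nat.lt_succ_iff.1 hj).lt_or_eq with h3 | rfl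
        · exact h1 j h3
        · exact h
      · exact Or.inr ⟨j, Nat.lt_succ_of_lt h1, h2⟩

def clm (δ g : W) (σ : ℕ → M) : Y := cl (b δ g) (lab δ) (lab δ) σ

theorem cont_clm {δ g : W} (h : g < δ) : Continuous (clm δ g) := cont_cl (b_mem h) _ _

def R : Set (W → Y) := {w | ∀ g g', g < g' →
  ((w g).1 (rho g g' + lab g') = true → w g' = non) ∧
  ((w g').1 (rho g g') = true → w g = clm g' g (w g').2)}

theorem closed_imp {Z : Type} [TopologicalSpace Z] {f : Z → Bool} (hf : Continuous f)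
    {p : Z → Prop} (hp : IsClosed {z | p z}) : IsClosed {z | f z = true → p z} := by
  convert ((isClosed_discrete {false}).preimage hf).union hp using 1
  ext z
  cases h : f z <;> simp [h]

theorem closed_R : IsClosed R := by
  simp only [R, ofPred_forall]
  refine isClosed_iInter fun g => isClosed_iInter fun g' => isClosed_iInter fun h => ?_
  exact IsClosed.and (closed_imp (by fun_prop) (isClosed_eq (by fun_prop) continuous_const))
    (closed_imp (by fun_prop) (isClosed_eq (by fun_prop) ((cont_clm h).comp (by fun_prop))))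

def L (δ : W) : Set (W → Y) :=
  {w | w ∈ R ∧ (w δ).1 = (fun _ => true) ∧ ∀ j, lab δ ≤ j → (w δ).2 j = o}

theorem L_lt {δ g : W} {w : W → Y} (hw : w ∈ L δ) (h : g < δ) : w g = clm δ g (w δ).2 :=
  (hw.1 g δ h).2 (congrFun hw.2.1 _)

theorem L_gt {δ g : W} {w : W → Y} (hw : w ∈ L δ) (h : δ < g) : w g = non :=
  (hw.1 δ g h).1 (congrFun hw.2.1 _)

def Φ (δ : W) (σ : ℕ → M) : W → Y := fun g =>
  if g < δ then clm δ g σ else if g = δ then (fun _ => true, σ) else non

theorem cont_Φ (δ : W) : Continuous (Φ δ) := by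
  refine continuous_pi fun g => ?_
  unfold Φ
  split_ifs with h1 h2
  · exact cont_clm h1
  · fun_prop
  · exact continuous_const

theorem Φ_self (δ : W) (σ : ℕ → M) : Φ δ σ δ = (fun _ => true, σ) := by simp [Φ]

theorem lind_L (δ : W) : IsLindelof (L δ) := by
  have : L δ = Φ δ '' ({σ | ∀ j, lab δ ≤ j → σ j = o} ∩ Φ δ ⁻¹' R) := by
    ext w
    constructor
    · intro hw
      have e : Φ δ (w δ).2 = w := by
        funext g
        unfold Φ
        split_ifs with h1 h2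
        · exact (L_lt hw h1).symm
        · rw [h2, ← hw.2.1]
        · exact (L_gt hw (lt_of_le_of_ne (not_lt.1 h1) (Ne.symm h2))).symm
      exact ⟨(w δ).2, ⟨hw.2.2, by rw [mem_preimage, e]; exact hw.1⟩, e⟩
    · rintro ⟨σ, ⟨h1, h2⟩, rfl⟩
      exact ⟨h2, by rw [Φ_self], by rw [Φ_self]; exact h1⟩
  rw [this]
  exact ((lind_E _).inter_right (closed_R.preimage (cont_Φ δ))).image (cont_Φ δ)

def X : Set (W → Y) := {w | ∃ δ, w ∈ L δ}

instance : FirstCountableTopology X := ⟨fun z => by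
  obtain ⟨δ, hz⟩ := z.2
  have hc : Continuous fun w : X => w.1 δ := (continuous_apply _).comp continuous_subtype_val
  have h0 : Tendsto (fun w : X => w.1 δ) (comap (fun w : X => w.1 δ) (𝓝 (z.1 δ))) (𝓝 (z.1 δ)) :=
    tendsto_comap
  have hb : ∀ n, ∀ᶠ w : X in comap (fun w : X => w.1 δ) (𝓝 (z.1 δ)), (w.1 δ).1 n = true := by
    intro n
    have h1 := ((continuous_apply n).comp continuous_fst).continuousAt.tendsto.comp h0
    have h2 : (z.1 δ).1 n = true := congrFun hz.2.1 n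
    simp only [Function.comp_apply, h2, nhds_discrete, tendsto_pure] at h1
    exact h1
  have hR : ∀ w : X, w.1 ∈ R := fun w => w.2.choose_spec.1
  have : 𝓝 z = comap (fun w : X => w.1 δ) (𝓝 (z.1 δ)) := by
    refine le_antisymm (hc.tendsto z).le_comap ?_
    refine tendsto_id'.1 (tendsto_subtype_rng.2 (tendsto_pi_nhds.2 fun g => ?_))
    rcases lt_trichotomy g δ with h | rfl | h
    · rw [L_lt hz h]
      refine (((cont_clm h).comp continuous_snd).continuousAt.tendsto.comp h0).congr' ?_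
      filter_upwards [hb (rho g δ)] with w hw
      exact ((hR w g δ h).2 hw).symm
    · exact h0
    · rw [L_gt hz h]
      refine tendsto_const_nhds.congr' ?_
      filter_upwards [hb (rho δ g + lab g)] with w hw
      exact ((hR w δ g h).1 hw).symm
  rw [this]; infer_instance⟩

structure Cond (Γ : Finset W) (N : ℕ) (v : W → Y) : Prop where
  r : v ∈ R
  supp : ∀ g ∉ Γ, v g = non
  bit : ∀ g n, N ≤ n → (v g).1 n = false
  slot : ∀ g j, N ≤ j → (v g).2 j = o

theorem realize {Γ : Finset W} {N : ℕ} {v : W → Y} (hv : Cond Γ N v) :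
    ∃ K, ∀ δ, lab δ = K → (∀ g ∈ Γ, g < δ) → ∃ w ∈ L δ, ∀ g ∈ Γ, w g = v g := by
  classical
  obtain ⟨idx, hidx⟩ := Set.countable_iff_exists_injOn.1 Γ.countable_toSet
  obtain ⟨K, hK1, hK2⟩ : ∃ K, N ≤ K ∧ ∀ g ∈ Γ, ∀ j < N + 2, Nat.pair (idx g) j < K := by
    refine ⟨N + 1 + (Γ ×ˢ Finset.range (N + 2)).sup fun p => Nat.pair (idx p.1) p.2,
      by omega, fun g hg j hj => ?_⟩
    have : Nat.pair (idx g) j ≤ (Γ ×ˢ Finset.range (N + 2)).sup
        fun p => Nat.pair (idx p.1) p.2 :=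
      Finset.le_sup (f := fun p : W × ℕ => Nat.pair (idx p.1) p.2) (b := (g, j))
        (Finset.mem_product.2 ⟨hg, Finset.mem_range.2 hj⟩)
    omega
  refine ⟨K, fun δ hδ hΓ => ?_⟩
  let s : W → ℕ → M := fun g j => Nat.casesOn j (M.ofC (b δ g))
    fun j => Nat.casesOn j (M.ofC (v g).1) fun j => (v g).2 j
  let σ : ℕ → M := fun n =>
    if h : ∃ g ∈ Γ, idx g = n.unpair.1 then s h.choose n.unpair.2 else o
  have hσ : ∀ g ∈ Γ, ∀ j, σ (Nat.pair (idx g) j) = s g j := by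
    intro g hg j
    have h : ∃ g' ∈ Γ, idx g' = (Nat.pair (idx g) j).unpair.1 := ⟨g, hg, by simp⟩
    have h2 : h.choose = g := hidx h.choose_spec.1 hg (by simpa using h.choose_spec.2)
    simp only [σ]
    rw [dif_pos h, h2, Nat.unpair_pair]
  have hσ' : ∀ i j, (¬ ∃ g ∈ Γ, idx g = i) → σ (Nat.pair i j) = o := by
    intro i j h
    simp only [σ, Nat.unpair_pair, dif_neg h]
  have hσK : ∀ n, K ≤ n → σ n = o := by
    intro n hn
    rw [← Nat.pair_unpair n]
    by_cases h : ∃ g ∈ Γ, idx g = n.unpair.1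
    · obtain ⟨g, hg, h⟩ := h
      rw [← h, hσ g hg]
      have h1 : N + 2 ≤ n.unpair.2 := by
        by_contra h2
        have := hK2 g hg _ (not_le.1 h2)
        rw [h, Nat.pair_unpair] at this
        omega
      obtain ⟨j, hj⟩ : ∃ j, n.unpair.2 = j + 2 := ⟨n.unpair.2 - 2, by omega⟩
      rw [hj]
      exact hv.slot g j (by omega)
    · exact hσ' _ _ h
  have hvl : ∀ g ∈ Γ, vl K (idx g) σ = v g := by
    intro g hg
    refine Prod.ext (funext fun n => ?_) (funext fun j => hσ g hg _)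
    simp only [vl, hσ g hg]
    change ((v g).1 n && decide (n < K)) = (v g).1 n
    by_cases hn : n < K
    · simp [hn]
    · simp [hv.bit g n (by omega)]
  have hcl : ∀ g, g < δ → clm δ g σ = v g := by
    intro g hg
    unfold clm
    rw [hδ]
    rcases cl_spec (b δ g) K K σ with ⟨h1, h2⟩ | ⟨j, hj, h1, h2⟩
    · rw [h2]
      refine (hv.supp g fun hg' => ?_).symm
      refine h1 (idx g) ((Nat.left_le_pair _ 0).trans_lt (hK2 g hg' 0 (by omega))) ?_
      rw [hσ g hg']; rfl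
    · by_cases h : ∃ g' ∈ Γ, idx g' = j
      · obtain ⟨g', hg', rfl⟩ := h
        rw [hσ g' hg'] at h1
        obtain rfl : g' = g := b_inj δ (hΓ g' hg') hg h1
        rw [h2, hvl g' hg']
      · rw [hσ' _ _ h] at h1
        exact absurd (h1 ▸ b_mem hg) o_not
  have e1 : ∀ g, g ≠ δ → Φ δ σ g = v g := by
    intro g hg
    unfold Φ
    split_ifs with h1
    · exact hcl g h1
    · exact (hv.supp g fun h => h1 (hΓ g h)).symm
  refine ⟨Φ δ σ, ⟨fun g g' hgg => ?_, by rw [Φ_self], ?_⟩, fun g hg => e1 g (hΓ g hg).ne⟩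
  · by_cases h1 : g' = δ
    · subst h1
      rw [e1 g hgg.ne, Φ_self, hcl g hgg, hv.bit g _ (by omega)]
      exact ⟨fun h => absurd h (by simp), fun _ => rfl⟩
    · by_cases h2 : g = δ
      · subst h2
        rw [e1 g' h1, hv.supp g' fun h => absurd (hΓ g' h) (not_lt.2 hgg.le)]
        exact ⟨fun _ => rfl, fun h => absurd h (by simp [non])⟩
      · rw [e1 g h2, e1 g' h1]
        exact hv.r g g' hgg
  · rw [Φ_self, hδ]; exact hσK

theorem L_val {δ g : W} {w : W → Y} (hw : w ∈ L δ) (h : g ≠ δ) : w g = non ∨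
    (g < δ ∧ ∃ j < lab δ, ((w δ).2 (Nat.pair j 0)).toC = b δ g ∧ w g = vl (lab δ) j (w δ).2) := by
  rcases lt_or_gt_of_ne h with h | h
  · rw [L_lt hw h]
    rcases cl_spec (b δ g) (lab δ) (lab δ) (w δ).2 with ⟨-, h2⟩ | h2
    · exact Or.inl h2
    · exact Or.inr ⟨h, h2⟩
  · exact Or.inl (L_gt hw h)

theorem L_bit {δ g : W} {w : W → Y} (hw : w ∈ L δ) (h : g ≠ δ) {n : ℕ} (hn : lab δ ≤ n) :
    (w g).1 n = false := by
  rcases L_val hw h with h1 | ⟨-, j, -, -, h1⟩
  · rw [h1]; rfl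
  · rw [h1]; simp [vl, hn]

theorem approx {δ : W} {z : W → Y} (hz : z ∈ L δ) {O : Set (W → Y)} (hO : IsOpen O)
    (hzO : z ∈ O) : ∃ Γ N v, Cond Γ N v ∧ ∀ y : W → Y, (∀ g ∈ Γ, y g = v g) → y ∈ O := by
  classical
  obtain ⟨Γ, u, hu, hΓ⟩ := isOpen_pi_iff.1 hO z hzO
  let v : ℕ → W → Y := fun t => Function.update z δ (fun n => decide (n < t), (z δ).2)
  have ht : Tendsto v atTop (𝓝 z) := by
    refine tendsto_pi_nhds.2 fun g => ?_
    by_cases hg : g = δ
    · subst hg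
      simp only [v, Function.update_self]
      refine Tendsto.prodMk_nhds ?_ tendsto_const_nhds
      refine tendsto_pi_nhds.2 fun N => tendsto_const_nhds.congr' ?_
      filter_upwards [eventually_gt_atTop N] with t ht
      rw [hz.2.1]; simp [ht]
    · simp only [v, Function.update_of_ne hg]
      exact tendsto_const_nhds
  have hop : IsOpen ((Γ : Set W).pi u) := isOpen_set_pi Γ.finite_toSet fun g hg => (hu g hg).1
  obtain ⟨t, ht'⟩ := (ht.eventually (hop.mem_nhds fun g hg => (hu g hg).2)).exists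
  have hfin : (insert δ (⋃ j ∈ Iio (lab δ),
      {g | g < δ ∧ b δ g = ((z δ).2 (Nat.pair j 0)).toC})).Finite := by
    refine Finite.insert _ ((finite_Iio _).biUnion fun j _ => Set.Subsingleton.finite ?_)
    intro x hx y hy
    exact b_inj δ hx.1 hy.1 (hx.2.trans hy.2.symm)
  have v2 : ∀ g, (v t g).2 = (z g).2 := fun g => by
    by_cases hg : g = δ
    · subst hg; simp [v]
    · simp only [v, Function.update_of_ne hg]
  have vne : ∀ g, g ≠ δ → v t g = z g := fun g hg => Function.update_of_ne hg _ _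
  have v1 : ∀ g n, (v t g).1 n = true → (z g).1 n = true := fun g n h => by
    by_cases hg : g = δ
    · rw [hg, hz.2.1]
    · rwa [vne g hg] at h
  refine ⟨Γ ∪ hfin.toFinset, t + lab δ, v t, ⟨fun g g' hgg => ⟨fun h => ?_, fun h => ?_⟩,
    fun g hg => ?_, fun g n hn => ?_, fun g j hj => ?_⟩, fun y hy => hΓ fun g hg => ?_⟩
  · have h1 := (hz.1 g g' hgg).1 (v1 _ _ h)
    have h2 : g' ≠ δ := by
      rintro rfl
      have := congrFun hz.2.1 0
      rw [h1] at this
      simp [non] at this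
    rw [vne g' h2, h1]
  · have h1 := (hz.1 g g' hgg).2 (v1 _ _ h)
    have h2 : g ≠ δ := by
      rintro rfl
      have := v1 _ _ h
      rw [L_gt hz hgg] at this
      simp [non] at this
    rw [vne g h2, h1, v2]
  · rw [Finset.mem_union, not_or, Finite.mem_toFinset] at hg
    have h1 : g ≠ δ := fun h => hg.2 (Or.inl h)
    rw [vne g h1]
    rcases L_val hz h1 with h | ⟨h2, j, hj, h3, -⟩
    · exact h
    · refine absurd (Or.inr (mem_biUnion (x := j) hj ?_)) hg.2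
      exact ⟨h2, h3.symm⟩
  · by_cases hg : g = δ
    · subst hg
      simp only [v, Function.update_self, decide_eq_false_iff_not]
      omega
    · rw [vne g hg]; exact L_bit hz hg (by omega)
  · rw [v2]
    by_cases hg : g = δ
    · rw [hg]; exact hz.2.2 j (by omega)
    · rcases L_val hz hg with h | ⟨-, i, -, -, h⟩
      · rw [h]; rfl
      · rw [h]
        have := Nat.right_le_pair i (j + 2)
        exact hz.2.2 _ (by omega)
  · rw [hy g (Finset.mem_union_left _ hg)]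
    exact ht' g hg

theorem conds (𝒰 : Set (Set X)) (h : ∀ U ∈ 𝒰, IsOpen U ∧ U.Nonempty) :
    ∃ (Γ : Set X → Finset W) (N : Set X → ℕ) (v : Set X → W → Y), ∀ U ∈ 𝒰,
      Cond (Γ U) (N U) (v U) ∧ ∀ y : X, (∀ g ∈ Γ U, y.1 g = v U g) → y ∈ U := by
  have : ∀ U, ∃ (Γ : Finset W) (N : ℕ) (v : W → Y), U ∈ 𝒰 → Cond Γ N v ∧
      ∀ y : X, (∀ g ∈ Γ, y.1 g = v g) → y ∈ U := by
    intro U
    by_cases hU : U ∈ 𝒰
    · obtain ⟨⟨O, hO, rfl⟩, ⟨z, δ, hz⟩, hzU⟩ := h U hU
      obtain ⟨Γ, N, v, h1, h2⟩ := approx hz hO hzU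
      exact ⟨Γ, N, v, fun _ => ⟨h1, fun y hy => h2 y hy⟩⟩
    · exact ⟨∅, 0, fun _ => non, fun h => absurd h hU⟩
  choose Γ N v hw using this
  exact ⟨Γ, N, v, hw⟩

theorem mk_Y : Cardinal.mk Y ≤ 𝔠 := by
  change Cardinal.mk (C × (ℕ → C)) ≤ 𝔠
  simp

theorem realize' {Γ : Finset W} {N : ℕ} {v : W → Y} (hv : Cond Γ N v) (δ : W) :
    ∃ δ', δ < δ' ∧ ∃ w ∈ L δ', ∀ g ∈ Γ, w g = v g := by
  classical
  obtain ⟨K, hK⟩ := realize hv
  obtain ⟨δ1, h1⟩ := exists_bound (small_countable (insert δ Γ).countable_toSet)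
  obtain ⟨δ', h2, h3⟩ := lab_spec δ1 K
  exact ⟨δ', (h1 δ (by simp)).trans h2, hK δ' h3 fun g hg => (h1 g (by simp [hg])).trans h2⟩

theorem cell_small (𝒰 : Set (Set X)) (h : ∀ U ∈ 𝒰, IsOpen U ∧ U.Nonempty)
    (hd : 𝒰.PairwiseDisjoint id) : Cardinal.mk 𝒰 ≤ 𝔠 := by
  classical
  by_contra hc
  obtain ⟨Γ, N, v, hv⟩ := conds 𝒰 h
  obtain ⟨U, hU, U', hU', hne, hN, h1, h2⟩ := delta' mk_Y 𝒰 (not_le.1 hc) Γ v N
  have c1 := (hv U hU).1
  have c2 := (hv U' hU').1
  rw [← hN] at c2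
  let w : W → Y := fun g => if g ∈ Γ U then v U g else v U' g
  have e1 : ∀ g, ¬ (g ∈ Γ U' ∧ g ∉ Γ U) → w g = v U g := fun g hg => by
    by_cases h3 : g ∈ Γ U
    · exact if_pos h3
    · rw [c1.supp g h3, ← c2.supp g fun h => hg ⟨h, h3⟩]; exact if_neg h3
  have e2 : ∀ g, ¬ (g ∈ Γ U ∧ g ∉ Γ U') → w g = v U' g := fun g hg => by
    by_cases h3 : g ∈ Γ U
    · rw [← h1 g h3 (by tauto)]; exact if_pos h3
    · exact if_neg h3
  have e3 : ∀ g, w g = v U g ∨ w g = v U' g := fun g => by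
    by_cases h3 : g ∈ Γ U
    · exact Or.inl (if_pos h3)
    · exact Or.inr (if_neg h3)
  have wb : ∀ g n, N U ≤ n → (w g).1 n = false := fun g n hn => by
    rcases e3 g with h | h <;> rw [h]
    exacts [c1.bit g n hn, c2.bit g n hn]
  have hw : Cond (Γ U ∪ Γ U') (N U) w := by
    refine ⟨fun g g' hgg => ?_, fun g hg => ?_, wb, fun g j hj => ?_⟩
    · by_cases b1 : ¬ (g ∈ Γ U' ∧ g ∉ Γ U) ∧ ¬ (g' ∈ Γ U' ∧ g' ∉ Γ U)
      · rw [e1 g b1.1, e1 g' b1.2]; exact c1.r g g' hgg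
      by_cases b2 : ¬ (g ∈ Γ U ∧ g ∉ Γ U') ∧ ¬ (g' ∈ Γ U ∧ g' ∉ Γ U')
      · rw [e2 g b2.1, e2 g' b2.2]; exact c2.r g g' hgg
      have b3 : N U < rho g g' := by
        by_cases b4 : g ∈ Γ U ∧ g ∉ Γ U'
        · have b5 : g' ∈ Γ U' ∧ g' ∉ Γ U := by tauto
          exact (h2 g b4.1 b4.2 g' b5.1 b5.2).2
        · have b5 : g' ∈ Γ U ∧ g' ∉ Γ U' := by tauto
          have b6 : g ∈ Γ U' ∧ g ∉ Γ U := by tauto
          exact absurd (h2 g' b5.1 b5.2 g b6.1 b6.2).1 (not_lt.2 hgg.le)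
      rw [wb g _ (by omega), wb g' _ b3.le]
      exact ⟨fun h => absurd h (by simp), fun h => absurd h (by simp)⟩
    · rw [Finset.mem_union, not_or] at hg
      rw [e1 g (by tauto)]; exact c1.supp g hg.1
    · rcases e3 g with h | h <;> rw [h]
      exacts [c1.slot g j hj, c2.slot g j hj]
  obtain ⟨δ0⟩ : Nonempty W := mk_ne_zero_iff.1 (lt_mk_W.trans_le' zero_le).ne'
  obtain ⟨δ, -, z, hz, hz'⟩ := realize' hw δ0
  have m1 := (hv U hU).2 ⟨z, δ, hz⟩ fun g hg => by
    rw [← e1 g (by tauto)]; exact hz' g (Finset.mem_union_left _ hg)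
  have m2 := (hv U' hU').2 ⟨z, δ, hz⟩ fun g hg => by
    rw [← e2 g (by tauto)]; exact hz' g (Finset.mem_union_right _ hg)
  exact disjoint_left.1 (hd hU hU' hne) m1 m2

theorem cell_lind (𝒰 : Set (Set X)) (h : ∀ U ∈ 𝒰, IsOpen U ∧ U.Nonempty)
    (hd : 𝒰.PairwiseDisjoint id) :
    ∃ M : Set X, IsLindelof M ∧ ∀ U ∈ 𝒰, (M ∩ U).Nonempty := by
  obtain ⟨Γ, N, v, hv⟩ := conds 𝒰 h
  obtain ⟨δ, hδ⟩ := exists_bound (small_biUnion (f := fun U => (Γ U : Set W))
    (cell_small 𝒰 h hd) fun U _ => small_countable (Γ U).countable_toSet)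
  choose ν h1 h2 using lab_spec δ
  refine ⟨Subtype.val ⁻¹' (⋃ k, L (ν k)), ?_, fun U hU => ?_⟩
  · rw [Subtype.isLindelof_iff, image_preimage_eq_of_subset]
    · exact isLindelof_iUnion fun k => lind_L _
    · rw [Subtype.range_coe]
      exact iUnion_subset fun k z hz => ⟨_, hz⟩
  · obtain ⟨K, hK⟩ := realize (hv U hU).1
    obtain ⟨z, hz, hz'⟩ := hK (ν K) (h2 K) fun g hg => (hδ g (mem_biUnion hU hg)).trans (h1 K)
    exact ⟨⟨z, _, hz⟩, mem_iUnion.2 ⟨K, hz⟩, (hv U hU).2 _ hz'⟩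

theorem big_X : 𝔠 < Cardinal.mk X := by
  by_contra hc
  choose lv hlv using fun z : X => z.2
  obtain ⟨δ, hδ⟩ := exists_bound (s := range lv) (mk_range_le.trans (not_lt.1 hc))
  obtain ⟨δ', h1, w, hw, -⟩ := realize' (Γ := ∅) (N := 0) (v := fun _ => non)
    ⟨fun g g' _ => ⟨fun _ => rfl, fun h => absurd h (by simp [non])⟩, fun _ _ => rfl,
      fun _ _ _ => rfl, fun _ _ _ => rfl⟩ δ
  have h2 := L_gt (hlv ⟨w, δ', hw⟩) ((hδ _ ⟨_, rfl⟩).trans h1)
  have h3 := congrFun hw.2.1 0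
  simp only at h2
  rw [h2] at h3
  simp [non] at h3

end

end Pool.Agent.H.MP_898423_gt
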